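import Pool.Agent.Helper55.RG.Spec

/-!
# A Bezout relation with bounded degrees (part BZ2)
-/

set_option autoImplicit false
set_option linter.all false

open FF Polynomial Module

namespace Pool.Agent.Helper33.RG.BZ2

open Pool.Agent.Helper55.RG

section lib

variable {κ N : Type} [Field κ] [CharZero κ] [Field N] [Algebra κ N] [IsFF κ N]

/-- values at places over an algebraically closed field -/
theorem val [IsAlgClosed κ] (P : Place κ N) (x : N) (hx : P.Reg x) :
    ∃ c : κ, x = algebraMap κ N c ∨ 0 < P.ord (x - algebraMap κ N c) := by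
  have h1 : Algebra.IsIntegral κ P.RF := inferInstance
  obtain ⟨c, hc⟩ := (IsAlgClosed.algebraMap_bijective_of_isIntegral (k := κ) (K := P.RF)).2 (P.red x)
  refine ⟨c, ?_⟩
  rw [Place.algebraMap_RF] at hc
  have h2 : P.Reg (algebraMap κ N c) := P.reg_const c
  have h3 : P.red (x - algebraMap κ N c) = 0 := by
    rw [P.red_sub hx h2, hc, sub_self]
  have h4 : P.Reg (x - algebraMap κ N c) := by
    rw [sub_eq_add_neg]
    exact P.reg_add hx (P.reg_neg h2)
  rcases (P.red_eq_zero_iff h4).1 h3 with h5 | h5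
  · exact Or.inl (sub_eq_zero.1 h5)
  · exact Or.inr h5

/-- the coefficient of an effective divisor is at most its degree -/
theorem apply_le_ddeg {D : Place κ N →₀ ℤ} (hD : 0 ≤ D) (P : Place κ N) : D P ≤ ddeg D := by
  classical
  have h1 : Finsupp.single P (D P) ≤ D := by
    intro Q
    by_cases h : Q = P
    · subst h; simp
    · rw [Finsupp.single_apply, if_neg (Ne.symm h)]
      exact hD Q
  have h2 := ddeg_mono h1
  rw [ddeg_single] at h2
  have h3 : (1 : ℤ) ≤ P.deg := by exact_mod_cast P.deg_pos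
  have h4 : 0 ≤ D P := hD P
  nlinarith

/-- the orders of the functions with bounded poles are bounded -/
theorem ord_le_of_mem {D : Place κ N →₀ ℤ} (hD : 0 ≤ D) {u : N} (hu0 : u ≠ 0) (hu : u ∈ LL D)
    (P : Place κ N) : P.ord u ≤ ddeg D := by
  rw [mem_LL' hu0] at hu
  have h1 := apply_le_ddeg hu P
  rw [ddeg_add, ddeg_divisor, zero_add, Finsupp.add_apply, divisor_apply] at h1
  have h2 : 0 ≤ D P := hD P
  omega

theorem aeval_ne_zero {t : N} (ht : Transcendental κ t) {s : κ[X]} (hs : s ≠ 0) :
    aeval t s ≠ 0 := by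
  intro h
  exact ht ⟨s, hs, h⟩

/-- polynomials in `t` have poles at the poles of `t` only -/
theorem aeval_mem (t : N) (s : κ[X]) : aeval t s ∈ LL (s.natDegree • polar (k := κ) t) := by
  rw [aeval_eq_sum_range]
  refine Submodule.sum_mem _ fun i hi => ?_
  refine Submodule.smul_mem _ _ ?_
  by_cases h0 : t = 0
  · rcases Nat.eq_zero_or_pos i with rfl | hi0
    · right; intro P
      rw [pow_zero, P.ord_one]
      have := (nsmul_nonneg (polar_nonneg (k := κ) t) s.natDegree) P
      simp only [Finsupp.coe_zero, Pi.zero_apply] at this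
      omega
    · left; rw [h0, zero_pow hi0.ne']
  right
  intro P
  rw [P.ord_pow, Finsupp.smul_apply, polar_apply, nsmul_eq_mul]
  have hi' : (i : ℤ) ≤ s.natDegree := by
    have := Finset.mem_range.1 hi
    omega
  rcases le_or_gt 0 (P.ord t) with h | h
  · rw [max_eq_right (by omega)]
    have : 0 ≤ (i : ℤ) * P.ord t := by positivity
    omega
  · rw [max_eq_left (by omega)]
    nlinarith

theorem ord_aeval_ge {t : N} (ht : Transcendental κ t) {s : κ[X]} (hs : s ≠ 0) (P : Place κ N) :
    - (s.natDegree * max (- P.ord t) 0) ≤ P.ord (aeval t s) := by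
  have h := (aeval_mem (κ := κ) t s).resolve_left (aeval_ne_zero ht hs) P
  rw [Finsupp.smul_apply, polar_apply, nsmul_eq_mul] at h
  exact h

end lib

theorem main : S_BZ2 := by
  intro κ N _ _ _ _ _ _ t ht s hs M
  obtain ⟨γ, N₀, -, hR⟩ := riemann κ N
  have hdpos := ddeg_polar_pos (k := κ) ht
  obtain ⟨d, hd⟩ : ∃ d : ℕ, (d : ℤ) = ddeg (polar (k := κ) t) := ⟨(ddeg (polar (k := κ) t)).toNat, by omega⟩
  have hd1 : (1 : ℤ) ≤ d := by omega
  let r : ℕ := M * d
  let e : ℕ := r * s.natDegree + M * d + M + N₀.toNat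
  refine ⟨e, r, ?_⟩
  intro u₁ u₂ hu₁ hu₂ hm₁ hm₂ hcop
  set H : Place κ N →₀ ℤ := polar (k := κ) t with hH
  have hH0 : (0 : Place κ N →₀ ℤ) ≤ H := polar_nonneg t
  let Mn : Place κ N →₀ ℤ := divisor κ u₁ ⊓ divisor κ u₂
  have hMn : ∀ P, Mn P = min (P.ord u₁) (P.ord u₂) := fun P => by
    simp only [Mn, Finsupp.inf_apply, divisor_apply]
  have hMnle : Mn ≤ divisor κ u₁ := inf_le_left
  have hMnge : -(M • H) ≤ Mn := by
    intro P
    have h1 := (hm₁.resolve_left hu₁) P
    have h2 := (hm₂.resolve_left hu₂) P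
    rw [hMn, Finsupp.neg_apply]
    exact le_min h1 h2
  have hdegle : ddeg Mn ≤ 0 := by
    have := ddeg_mono hMnle
    rwa [ddeg_divisor] at this
  have hdegge : -(M * d : ℤ) ≤ ddeg Mn := by
    have := ddeg_mono hMnge
    rwa [ddeg_neg, ddeg_nsmul, ← hd] at this
  let E : Place κ N →₀ ℤ := e • H
  have hdE : ddeg E = e * d := by
    rw [ddeg_nsmul, ← hd]
  have he1 : (N₀ : ℤ) ≤ (e - M) * d := by
    have h1 : (N₀ : ℤ) ≤ e - M := by
      have : ((e : ℕ) : ℤ) = r * s.natDegree + M * d + M + N₀.toNat := by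
        simp only [e]; push_cast; ring
      have h2 : (0 : ℤ) ≤ r * s.natDegree := by positivity
      have h3 : (0 : ℤ) ≤ M * d := by positivity
      have h4 : N₀ ≤ N₀.toNat := Int.self_le_toNat N₀
      omega
    have h2 : (0 : ℤ) ≤ e - M := by
      have : ((e : ℕ) : ℤ) = r * s.natDegree + M * d + M + N₀.toNat := by
        simp only [e]; push_cast; ring
      have h2 : (0 : ℤ) ≤ r * s.natDegree := by positivity
      have h3 : (0 : ℤ) ≤ M * d := by positivity
      omega
    nlinarith
  have hMd : (0 : ℤ) ≤ M * d := by positivity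
  have hell1 : ell E = e * d - γ := by
    rw [hR E, hdE]
    rw [hdE]; nlinarith
  have hell2 : ell (E + Mn) = e * d + ddeg Mn - γ := by
    rw [hR (E + Mn), ddeg_add, hdE]
    rw [ddeg_add, hdE]; nlinarith
  have hell3 : ell (E - Mn) = e * d - ddeg Mn - γ := by
    rw [hR (E - Mn), ddeg_sub, hdE]
    rw [ddeg_sub, hdE]; nlinarith
  -- the map
  have hmul : ∀ (u : N), (∀ P, Mn P ≤ P.ord u) → u ≠ 0 → ∀ a ∈ LL E, a * u ∈ LL (E - Mn) := by
    intro u hu hu0 a ha
    by_cases ha0 : a = 0
    · left; rw [ha0, zero_mul]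
    right
    intro P
    have h1 := (ha.resolve_left ha0) P
    rw [P.ord_mul ha0 hu0, Finsupp.sub_apply]
    have := hu P
    omega
  have hu1' : ∀ P, Mn P ≤ P.ord u₁ := fun P => by rw [hMn]; exact min_le_left _ _
  have hu2' : ∀ P, Mn P ≤ P.ord u₂ := fun P => by rw [hMn]; exact min_le_right _ _
  let φ : (LL (k := κ) E × LL (k := κ) E) →ₗ[κ] LL (k := κ) (E - Mn) :=
    { toFun := fun p => ⟨p.1.1 * u₁ + p.2.1 * u₂,
        Submodule.add_mem _ (hmul u₁ hu1' hu₁ _ p.1.2) (hmul u₂ hu2' hu₂ _ p.2.2)⟩
      map_add' := by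
        intro p q
        apply Subtype.ext
        simp only [Prod.fst_add, Prod.snd_add, Submodule.coe_add]
        ring
      map_smul' := by
        intro c p
        apply Subtype.ext
        simp only [Prod.smul_fst, Prod.smul_snd, Submodule.coe_smul, RingHom.id_apply, smul_add,
          smul_mul_assoc] }
  have hφ : ∀ p, (φ p : N) = p.1.1 * u₁ + p.2.1 * u₂ := fun p => rfl
  -- the kernel
  have hker : ∀ p ∈ LinearMap.ker φ, p.1.1 / u₂ ∈ LL (k := κ) (E + Mn) := by
    intro p hp
    have h0 : p.1.1 * u₁ + p.2.1 * u₂ = 0 := by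
      rw [LinearMap.mem_ker] at hp
      rw [← hφ, hp]; rfl
    by_cases ha : p.1.1 = 0
    · left; rw [ha, zero_div]
    have hb : p.2.1 ≠ 0 := by
      intro hb
      rw [hb, zero_mul, add_zero] at h0
      exact (mul_ne_zero ha hu₁) h0
    right
    intro P
    have h1 := (p.1.2.resolve_left ha) P
    have h2 := (p.2.2.resolve_left hb) P
    have h3 : p.1.1 * u₁ = -(p.2.1 * u₂) := eq_neg_of_add_eq_zero_left h0
    have h4 := congrArg P.ord h3
    rw [P.ord_neg, P.ord_mul ha hu₁, P.ord_mul hb hu₂] at h4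
    rw [P.ord_div ha hu₂, Finsupp.add_apply, hMn]
    rcases le_total (P.ord u₁) (P.ord u₂) with h5 | h5
    · rw [min_eq_left h5]; omega
    · rw [min_eq_right h5]; omega
  let ψ : LinearMap.ker φ →ₗ[κ] LL (k := κ) (E + Mn) :=
    { toFun := fun p => ⟨p.1.1.1 / u₂, hker p.1 p.2⟩
      map_add' := by
        intro p q
        apply Subtype.ext
        simp only [Submodule.coe_add, Prod.fst_add, add_div]
      map_smul' := by
        intro c p
        apply Subtype.ext
        simp only [Submodule.coe_smul, Prod.smul_fst, RingHom.id_apply, smul_div_assoc] }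
  have hk0 : ∀ p : LinearMap.ker φ, p.1.1.1 * u₁ + p.1.2.1 * u₂ = 0 := by
    intro p
    have hp' := p.2
    rw [LinearMap.mem_ker] at hp'
    rw [← hφ, hp']; rfl
  have hψ : Function.Injective ψ := by
    intro p q hpq
    have h1 : p.1.1.1 / u₂ = q.1.1.1 / u₂ := congrArg Subtype.val hpq
    have h2 : p.1.1.1 = q.1.1.1 := (div_left_inj' hu₂).1 h1
    have h3 := hk0 p
    have h4 := hk0 q
    rw [h2, ← h4] at h3
    have h5 : p.1.2.1 = q.1.2.1 := mul_right_cancel₀ hu₂ (add_left_cancel h3)
    apply Subtype.ext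
    apply Prod.ext
    · exact Subtype.ext h2
    · exact Subtype.ext h5
  have hrank1 : finrank κ (LinearMap.ker φ) ≤ finrank κ (LL (k := κ) (E + Mn)) :=
    LinearMap.finrank_le_finrank_of_injective hψ
  have hrank2 := LinearMap.finrank_range_add_finrank_ker φ
  rw [Module.finrank_prod] at hrank2
  have htop : LinearMap.range φ = ⊤ := by
    apply Submodule.eq_top_of_finrank_eq
    apply le_antisymm (Submodule.finrank_le _)
    unfold ell at hell1 hell2 hell3
    omega
  -- the target
  have hs0 := aeval_ne_zero ht hs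
  have hmem : (aeval t s) ^ r ∈ LL (k := κ) (E - Mn) := by
    right
    intro P
    rw [P.ord_pow, Finsupp.sub_apply, Finsupp.smul_apply, nsmul_eq_mul, hH, polar_apply]
    have hb1 : Mn P ≤ M * d := by
      have h1 := ord_le_of_mem (nsmul_nonneg hH0 M) hu₁ hm₁ P
      rw [ddeg_nsmul, ← hd] at h1
      exact (hu1' P).trans h1
    have hge := ord_aeval_ge ht hs P
    have hecast : ((e : ℕ) : ℤ) = r * s.natDegree + M * d + M + N₀.toNat := by
      simp only [e]; push_cast; ring
    rcases lt_or_ge (P.ord t) 0 with hneg | hpos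
    · rw [max_eq_left (by omega)] at hge ⊢
      have h1 : (1 : ℤ) ≤ - P.ord t := by omega
      have h2 : (r : ℤ) * (-(s.natDegree * -P.ord t)) ≤ r * P.ord (aeval t s) :=
        mul_le_mul_of_nonneg_left hge (by positivity)
      have h3 : (M * d : ℤ) ≤ (M * d + M + N₀.toNat) * (-P.ord t) := by
        have : (M * d : ℤ) ≤ (M * d + M + N₀.toNat) := by
          have : (0 : ℤ) ≤ M := by positivity
          have : (0 : ℤ) ≤ N₀.toNat := by positivity
          omega
        nlinarith
      rw [hecast]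
      nlinarith
    · rw [max_eq_right (by omega)] at hge ⊢
      have hge' : 0 ≤ P.ord (aeval t s) := by simpa using hge
      obtain ⟨a, ha⟩ := val P t (Or.inr hpos)
      have ha' : 0 < P.ord (t - algebraMap κ N a) := by
        rcases ha with h | h
        · exact absurd (h ▸ isAlgebraic_algebraMap a) ht
        · exact h
      by_cases hsa : s.eval a = 0
      · obtain ⟨q, hq⟩ := dvd_iff_isRoot.2 hsa
        have hq0 : q ≠ 0 := by
          rintro rfl
          exact hs (by rw [hq, mul_zero])
        have h1 : aeval t s = (t - algebraMap κ N a) * aeval t q := by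
          rw [hq, map_mul, map_sub, aeval_X, aeval_C]
        have h2 : t - algebraMap κ N a ≠ 0 := by
          intro h
          rw [h, P.ord_zero] at ha'
          exact lt_irrefl _ ha'
        have h3 := ord_aeval_ge ht hq0 P
        rw [max_eq_right (by omega)] at h3
        have h4 : 1 ≤ P.ord (aeval t s) := by
          rw [h1, P.ord_mul h2 (aeval_ne_zero ht hq0)]
          have h3' : 0 ≤ P.ord (aeval t q) := by simpa using h3
          omega
        have h5 : (r : ℤ) * 1 ≤ r * P.ord (aeval t s) :=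
          mul_le_mul_of_nonneg_left h4 (by positivity)
        have h6 : ((r : ℕ) : ℤ) = M * d := by simp only [r]; push_cast; ring
        rw [h6] at h5 ⊢
        omega
      · have h1 : Mn P ≤ 0 := by
          rw [hMn]
          have := hcop P a ha' hsa
          by_contra hc
          push Not at hc
          exact this ⟨(lt_min_iff.1 hc).1, (lt_min_iff.1 hc).2⟩
        have h2 : 0 ≤ (r : ℤ) * P.ord (aeval t s) := by positivity
        omega
  obtain ⟨p, hp⟩ := (LinearMap.range_eq_top.1 htop) ⟨_, hmem⟩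
  refine ⟨p.1.1, p.2.1, p.1.2, p.2.2, ?_⟩
  rw [← hφ, hp]

end Pool.Agent.Helper33.RG.BZ2
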